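import Pool.Agent.Helper10.GO.GoalsT
import Pool.Agent.Helper80.HD.Final

/-!
# Project GO (MP_6af536_nt): packet LINK

Comparison of the mixed heights with the arithmetic degree.
-/

set_option autoImplicit false

open MvPolynomial Filter Topology

noncomputable section

namespace Pool.Agent.Helper9.GO

open Pool.Agent.Helper10.GO Pool.Agent.Helper80.HD Pool.Agent.Helper80.AD

section scale

variable {K : Type} [Field K] [Algebra K ℂ]

theorem ratioField_smul {N : ℕ} {x x' : Fin (N + 1) → ℂ} {c : ℂ} (hc : c ≠ 0)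
    (h : ∀ j, x j = c * x' j) : ratioField K x = ratioField K x' := by
  unfold ratioField
  congr 1
  ext a
  simp only [Set.mem_ofPred_eq, h, mul_div_mul_left _ _ hc]

theorem vanishes_smul {r N : ℕ} {z z' : Fin r → Fin (N + 1) → ℂ} {c : Fin r → ℂ} (hc : ∀ i, c i ≠ 0)
    (h : ∀ i j, z i j = c i * z' i j) (Q : MvPolynomial (Fin r × Fin (N + 1)) K) :
    Vanishes K z Q ↔ Vanishes K z' Q := by
  have e : ∀ (u : Fin r × Fin (N + 1) → ℂ) (i : Fin r),
      (∑ j, u (i, j) * z i j = 0) ↔ ∑ j, u (i, j) * z' i j = 0 := by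
    intro u i
    have e1 : ∑ j, u (i, j) * z i j = c i * ∑ j, u (i, j) * z' i j := by
      rw [Finset.mul_sum]
      refine Finset.sum_congr rfl fun j _ => ?_
      rw [h]
      ring
    rw [e1, mul_eq_zero, or_iff_right (hc i)]
  unfold Vanishes
  simp only [e]

theorem resForm_smul {r N : ℕ} {z z' : Fin r → Fin (N + 1) → ℂ} {c : Fin r → ℂ} (hc : ∀ i, c i ≠ 0)
    (h : ∀ i j, z i j = c i * z' i j) : resForm K z = resForm K z' := by
  have e : IsRes K z = IsRes K z' := by
    funext P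
    unfold IsRes
    simp only [vanishes_smul (K := K) hc h]
  unfold resForm
  rw [e]

theorem arithDeg_smul {K : Type} [Field K] [NumberField K] [Algebra K ℂ] {k N : ℕ}
    {x x' : ℕ → Fin (N + 1) → ℂ} (h : ∀ n, ∃ c : ℂ, c ≠ 0 ∧ ∀ j, x n j = c * x' n j) (n : ℕ) :
    arithDeg K k x n = arithDeg K k x' n := by
  obtain ⟨c, hc, h1⟩ := h n
  obtain ⟨c', hc', h2⟩ := h 0
  unfold arithDeg chowForm
  rw [ratioField_smul hc h1, ratioField_smul hc' h2,
    resForm_smul (K := K) (c := fun _ : Fin (k + 1) => c) (fun _ => hc) (fun _ j => h1 j)]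

end scale

theorem link (hSYM : S_SYM) (hDEP : S_DEP) (hRES : S_RES) (hHOM : S_HOM) (hTDG : S_TDG)
    (hCMP : S_CMP) (hLHD : S_LHD) : S_LINK := by
  intro K _ _ _ F k N x y D E C hF htr hx hbd hE0 hD1 hcmpE
  obtain ⟨c, hc, hx0⟩ := hx 0
  have hF' : F = ratioField K (cv (y 0).1) := hF.trans (ratioField_smul hc hx0)
  have hFG : F.FG := by rw [hF]; exact ratioField_fg K _
  have hB : ∀ n, Big K F (cv (y n).1) := fun n => (y n).2.1
  obtain ⟨C₁, hC₁, hcmp⟩ := arithDeg_cmp (x := fun n => cv (y n).1) hSYM hDEP hRES hHOM hTDG hCMP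
    hLHD hF' hFG htr hB
  have hDD : ∀ n, DD F (fun n => cv (y n).1) (fun _ : Fin k => n) = D (fun _ => y n) := by
    intro n
    have e1 := bdeg_eq (x := fun n => cv (y n).1) hSYM hDEP hFG htr hB (fun _ : Fin (k + 1) => n) 0
    rw [← e1]
    exact hbd (fun _ => y n) 0
  have hEE : ∀ n, Pool.Agent.Helper80.HD.EE F (fun n => cv (y n).1) k (fun _ => n) = E₀ F (fun _ : Fin (k + 1) => y n) :=
    fun n => rfl
  have hcE : ∀ n, |E (fun _ => y n) - E₀ F (fun _ : Fin (k + 1) => y n)| ≤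
      C * ((k + 1) * D (fun _ => y n)) := by
    intro n
    have := hcmpE (fun _ => y n)
    simpa using this
  have hk1 : (0 : ℝ) < (k : ℝ) + 1 := by positivity
  have hC0 : 0 ≤ C := by
    have e1 := (abs_nonneg _).trans (hcE 0)
    have e2 : 0 < ((k : ℝ) + 1) * D (fun _ => y 0) := mul_pos hk1 (zero_lt_one.trans_le (hD1 _))
    exact nonneg_of_mul_nonneg_left e1 e2
  have hU : ∀ n, UU E D (fun _ => y n) = E (fun _ => y n) + (k + 1) * D (fun _ => y n) := by
    intro n
    unfold UU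
    simp
  have hk0 : (0 : ℝ) ≤ k := Nat.cast_nonneg k
  have hM : 1 ≤ 1 + (C + 1) * ((k : ℝ) + 1) := by
    have : 0 ≤ (C + 1) * ((k : ℝ) + 1) := by positivity
    linarith
  refine ⟨(1 + (C + 1) * (k + 1)) * C₁, by nlinarith, fun n => ?_⟩
  rw [arithDeg_smul hx n, hU]
  obtain ⟨h1, h2⟩ := hcmp n
  rw [hDD, hEE] at h1 h2
  have e0 : 0 ≤ E₀ F (fun _ : Fin (k + 1) => y n) := lh_nonneg hLHD _
  have e1 := abs_le.1 (hcE n)
  have e2 := hD1 (fun _ => y n)
  have e3 := hE0 (fun _ => y n)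
  set a := E (fun _ => y n) with ha
  set a₀ := E₀ F (fun _ : Fin (k + 1) => y n) with ha₀
  set b := D (fun _ => y n) with hb
  have hb0 : 0 ≤ b := zero_le_one.trans e2
  have hCk : 0 ≤ C * (k + 1) := by positivity
  have hCb : 0 ≤ C * (k + 1) * b := by positivity
  have hkb : 0 ≤ (k : ℝ) * b := by positivity
  constructor
  · have e4 : a + (k + 1) * b ≤ (1 + (C + 1) * (k + 1)) * (a₀ + b) := by
      have : 0 ≤ (C + 1) * (k + 1) * a₀ := by positivity
      nlinarith [e1.2]
    rw [mul_assoc]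
    exact e4.trans (mul_le_mul_of_nonneg_left h1 (by linarith))
  · refine h2.trans ?_
    have e4 : a₀ + b ≤ (1 + (C + 1) * (k + 1)) * (a + (k + 1) * b) := by
      have f1 : 0 ≤ (C + 1) * (k + 1) * a := by positivity
      have f2 : 0 ≤ (C + 1) * (k + 1) * ((k + 1) * b) := by positivity
      have f3 : C * ((k + 1) * b) ≤ (C + 1) * (k + 1) * ((k + 1) * b) := by
        have : C ≤ (C + 1) * (k + 1) := by nlinarith
        exact mul_le_mul_of_nonneg_right this (by positivity)
      nlinarith [e1.1]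
    calc C₁ * (a₀ + b) ≤ C₁ * ((1 + (C + 1) * (k + 1)) * (a + (k + 1) * b)) :=
          mul_le_mul_of_nonneg_left e4 (by linarith)
      _ = (1 + (C + 1) * (k + 1)) * C₁ * (a + (k + 1) * b) := by ring

end Pool.Agent.Helper9.GO
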