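import Pool.Agent.Helper10.GO.GoalsA

/-!
# Project GO (MP_6af536_nt): packet TRN

The dimensions of products of spans are Hilbert functions.
-/

set_option autoImplicit false

open MvPolynomial Filter Topology

noncomputable section

namespace Pool.Agent.Helper9.GO

open Pool.Agent.Helper10.GO

variable {K L : Type} [Field K] [Field L] [Algebra K L] {r N : ℕ}

/-- the evaluation -/
def ev (K : Type) {L : Type} [Field K] [Field L] [Algebra K L] {r N : ℕ}
    (y : Fin r → Fin (N + 1) → L) : MvPolynomial (Fin r × Fin (N + 1)) K →ₐ[K] L :=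
  aeval (fun p : Fin r × Fin (N + 1) => y p.1 p.2)

/-- the homogenised evaluation -/
def phi (K : Type) {L : Type} [Field K] [Field L] [Algebra K L] {r N : ℕ}
    (y : Fin r → Fin (N + 1) → L) :
    MvPolynomial (Fin r × Fin (N + 1)) K →ₐ[K] MvPolynomial (Fin r) L :=
  aeval (fun p : Fin r × Fin (N + 1) => C (y p.1 p.2) * X p.1)

/-- a multidegree as a finitely supported function -/
def toF (β : Fin r → ℕ) : Fin r →₀ ℕ := Finsupp.equivFunOnFinite.symm β

theorem toF_apply (β : Fin r → ℕ) (i : Fin r) : toF β i = β i := rfl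

theorem toF_add (β γ : Fin r → ℕ) : toF (β + γ) = toF β + toF γ := by
  ext i; rfl

theorem toF_inj {β γ : Fin r → ℕ} (h : toF β = toF γ) : β = γ :=
  Finsupp.equivFunOnFinite.symm.injective h

theorem wt_apply (m : Fin r × Fin (N + 1) →₀ ℕ) (p : Fin r × Fin (N + 1)) :
    m p ≤ Finsupp.weight (bw r N) m p.1 := by
  rw [Finsupp.weight_apply, Finsupp.sum_fintype _ _ (by intro i; simp)]
  rw [Finset.sum_apply]
  have h : (m p • bw r N p) p.1 ≤ ∑ c, (m c • bw r N c) p.1 :=
    Finset.single_le_sum (f := fun c => (m c • bw r N c) p.1) (fun _ _ => Nat.zero_le _)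
      (Finset.mem_univ p)
  refine le_trans (le_of_eq ?_) h
  simp [bw]

theorem phi_monomial (y : Fin r → Fin (N + 1) → L) (m : Fin r × Fin (N + 1) →₀ ℕ) (a : K) :
    phi K y (monomial m a) =
      monomial (toF (Finsupp.weight (bw r N) m)) (ev K y (monomial m a)) := by
  induction m using Finsupp.induction_linear generalizing a with
  | zero =>
    have e : toF (Finsupp.weight (bw r N) (0 : Fin r × Fin (N + 1) →₀ ℕ)) = 0 := by
      rw [map_zero]
      ext i
      rfl
    rw [e]
    show phi K y (C a) = C (ev K y (C a))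
    unfold phi ev
    rw [aeval_C, aeval_C]
    rfl
  | add f g hf hg =>
    have e1 : (monomial (f + g) a : MvPolynomial (Fin r × Fin (N + 1)) K) =
        monomial f a * monomial g 1 := by
      rw [monomial_mul, mul_one]
    rw [e1, map_mul, map_mul, hf, hg, monomial_mul, map_add, toF_add]
  | single p n =>
    have e1 : (monomial (Finsupp.single p n) a : MvPolynomial (Fin r × Fin (N + 1)) K) =
        C a * X p ^ n := by
      rw [C_mul_X_pow_eq_monomial]
    have e2 : toF (Finsupp.weight (bw r N) (Finsupp.single p n)) = Finsupp.single p.1 n := by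
      ext i
      rw [toF_apply, Finsupp.weight_single]
      simp only [bw, Pi.smul_apply, smul_eq_mul]
      by_cases hi : i = p.1
      · subst hi; simp
      · rw [Pi.single_eq_of_ne hi, mul_zero, Finsupp.single_eq_of_ne hi]
    rw [e1, e2, map_mul, map_mul, map_pow, map_pow]
    unfold phi ev
    rw [aeval_C, aeval_C, aeval_X, aeval_X, mul_pow, ← map_pow, ← C_mul_X_pow_eq_monomial, map_mul,
      mul_assoc]
    rfl

theorem coeff_phi (y : Fin r → Fin (N + 1) → L) (β : Fin r → ℕ)
    (Q : MvPolynomial (Fin r × Fin (N + 1)) K) :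
    coeff (toF β) (phi K y Q) = ev K y (weightedHomogeneousComponent (bw r N) β Q) := by
  classical
  induction Q using MvPolynomial.induction_on' with
  | monomial m a =>
    rw [phi_monomial, coeff_monomial,
      weightedHomogeneousComponent_of_mem (isWeightedHomogeneous_monomial (bw r N) m a rfl)]
    by_cases h : β = Finsupp.weight (bw r N) m
    · rw [if_pos (by rw [h]), if_pos h]
    · rw [if_neg (fun h' => h (toF_inj h').symm), if_neg h, map_zero]
  | add P Q hP hQ =>
    rw [map_add, coeff_add, hP, hQ, map_add, map_add]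

theorem mem_ker (y : Fin r → Fin (N + 1) → L) (Q : MvPolynomial (Fin r × Fin (N + 1)) K) :
    Q ∈ RingHom.ker (phi K y) ↔
      ∀ β, ev K y (weightedHomogeneousComponent (bw r N) β Q) = 0 := by
  rw [RingHom.mem_ker]
  constructor
  · intro h β
    rw [← coeff_phi, h, coeff_zero]
  · intro h
    ext m
    have e : m = toF (fun i => m i) := by ext i; rfl
    rw [e, coeff_phi, h, coeff_zero]

theorem mh_finite (β : Fin r → ℕ) : Module.Finite K (mh K r N β) := by
  set b : Fin r × Fin (N + 1) →₀ ℕ := Finsupp.equivFunOnFinite.symm (fun p => β p.1) with hb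
  have hfin : (Set.Iic b).Finite := Set.finite_Iic b
  have hle : mh K r N β ≤ Submodule.span K
      ((fun m => (monomial m 1 : MvPolynomial (Fin r × Fin (N + 1)) K)) '' Set.Iic b) := by
    intro Q hQ
    rw [Q.as_sum]
    refine Submodule.sum_mem _ fun m hm => ?_
    have h1 : Finsupp.weight (bw r N) m = β := hQ (mem_support_iff.mp hm)
    have e : (monomial m (coeff m Q) : MvPolynomial (Fin r × Fin (N + 1)) K) =
        coeff m Q • monomial m 1 := by
      rw [smul_monomial, smul_eq_mul, mul_one]
    rw [e]
    refine Submodule.smul_mem _ _ (Submodule.subset_span ⟨m, ?_, rfl⟩)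
    intro p
    rw [← h1] at hb
    rw [hb]
    exact wt_apply m p
  have : FiniteDimensional K (Submodule.span K
      ((fun m => (monomial m 1 : MvPolynomial (Fin r × Fin (N + 1)) K)) '' Set.Iic b)) :=
    FiniteDimensional.span_of_finite K (hfin.image _)
  exact Submodule.finiteDimensional_of_le hle

/-- the product of the powers of the spans -/
def PP (K : Type) {L : Type} [Field K] [Field L] [Algebra K L] {r N : ℕ}
    (y : Fin r → Fin (N + 1) → L) (β : Fin r → ℕ) : Submodule K L := ∏ i, sp K (y i) ^ β i

theorem PP_zero (y : Fin r → Fin (N + 1) → L) : PP K y 0 = 1 := by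
  unfold PP
  refine Finset.prod_eq_one fun i _ => ?_
  rw [Pi.zero_apply, pow_zero]

theorem PP_add (y : Fin r → Fin (N + 1) → L) (β γ : Fin r → ℕ) :
    PP K y (β + γ) = PP K y β * PP K y γ := by
  unfold PP
  rw [← Finset.prod_mul_distrib]
  refine Finset.prod_congr rfl fun i _ => ?_
  rw [Pi.add_apply, pow_add]

theorem PP_single (y : Fin r → Fin (N + 1) → L) (i : Fin r) (n : ℕ) :
    PP K y (n • Pi.single i 1) = sp K (y i) ^ n := by
  unfold PP
  rw [Finset.prod_eq_single i]
  · simp
  · intro j _ hj
    rw [Pi.smul_apply, Pi.single_eq_of_ne hj, smul_zero, pow_zero]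
  · intro h
    exact absurd (Finset.mem_univ i) h

theorem one_mem_PP (y : Fin r → Fin (N + 1) → L) : (1 : L) ∈ PP K y 0 := by
  rw [PP_zero]
  exact Submodule.one_le.mp le_rfl

theorem ev_mono_mem (y : Fin r → Fin (N + 1) → L) (m : Fin r × Fin (N + 1) →₀ ℕ) :
    ev K y (monomial m 1) ∈ PP K y (Finsupp.weight (bw r N) m) := by
  induction m using Finsupp.induction_linear with
  | zero =>
    rw [map_zero]
    have : (monomial 0 1 : MvPolynomial (Fin r × Fin (N + 1)) K) = 1 := rfl
    rw [this, map_one]
    exact one_mem_PP y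
  | add f g hf hg =>
    have e1 : (monomial (f + g) 1 : MvPolynomial (Fin r × Fin (N + 1)) K) =
        monomial f 1 * monomial g 1 := by
      rw [monomial_mul, mul_one]
    rw [e1, map_mul, map_add, PP_add]
    exact Submodule.mul_mem_mul hf hg
  | single p n =>
    have e1 : (monomial (Finsupp.single p n) 1 : MvPolynomial (Fin r × Fin (N + 1)) K) =
        X p ^ n := by
      rw [X_pow_eq_monomial]
    rw [e1, map_pow, Finsupp.weight_single]
    show (ev K y (X p)) ^ n ∈ PP K y (n • Pi.single p.1 1)
    rw [PP_single]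
    refine Submodule.pow_mem_pow _ ?_ n
    unfold ev
    rw [aeval_X]
    exact Submodule.subset_span ⟨p.2, rfl⟩

theorem map_le (y : Fin r → Fin (N + 1) → L) (β : Fin r → ℕ) :
    Submodule.map (ev K y).toLinearMap (mh K r N β) ≤ PP K y β := by
  rintro _ ⟨Q, hQ, rfl⟩
  show ev K y Q ∈ _
  rw [Q.as_sum, map_sum]
  refine Submodule.sum_mem _ fun m hm => ?_
  have h1 : Finsupp.weight (bw r N) m = β := hQ (mem_support_iff.mp hm)
  have e : (monomial m (coeff m Q) : MvPolynomial (Fin r × Fin (N + 1)) K) =
      coeff m Q • monomial m 1 := by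
    rw [smul_monomial, smul_eq_mul, mul_one]
  rw [e, map_smul]
  refine Submodule.smul_mem _ _ ?_
  rw [← h1]
  exact ev_mono_mem y m

theorem map_mul_le (y : Fin r → Fin (N + 1) → L) (β γ : Fin r → ℕ) :
    Submodule.map (ev K y).toLinearMap (mh K r N β) *
      Submodule.map (ev K y).toLinearMap (mh K r N γ) ≤
      Submodule.map (ev K y).toLinearMap (mh K r N (β + γ)) := by
  rw [← Submodule.map_mul]
  exact Submodule.map_mono (weightedHomogeneousSubmodule_mul (bw r N) β γ)

theorem one_le_map (y : Fin r → Fin (N + 1) → L) :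
    1 ≤ Submodule.map (ev K y).toLinearMap (mh K r N 0) := by
  rw [Submodule.one_le]
  exact ⟨1, isWeightedHomogeneous_one K (bw r N), map_one (ev K y)⟩

theorem sp_le_map (y : Fin r → Fin (N + 1) → L) (i : Fin r) :
    sp K (y i) ≤ Submodule.map (ev K y).toLinearMap (mh K r N (Pi.single i 1)) := by
  unfold sp
  rw [Submodule.span_le]
  rintro _ ⟨j, rfl⟩
  refine ⟨X (i, j), isWeightedHomogeneous_X K (bw r N) (i, j), ?_⟩
  show ev K y (X (i, j)) = _
  unfold ev
  rw [aeval_X]

theorem sp_pow_le_map (y : Fin r → Fin (N + 1) → L) (i : Fin r) (n : ℕ) :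
    sp K (y i) ^ n ≤ Submodule.map (ev K y).toLinearMap (mh K r N (n • Pi.single i 1)) := by
  induction n with
  | zero =>
    rw [pow_zero, zero_smul]
    exact one_le_map y
  | succ n ih =>
    rw [pow_succ, succ_nsmul]
    exact (mul_le_mul' ih (sp_le_map y i)).trans (map_mul_le y _ _)

theorem prod_le_map (y : Fin r → Fin (N + 1) → L) (β : Fin r → ℕ) (s : Finset (Fin r)) :
    ∏ i ∈ s, sp K (y i) ^ β i ≤
      Submodule.map (ev K y).toLinearMap (mh K r N (∑ i ∈ s, β i • Pi.single i 1)) := by
  classical
  induction s using Finset.induction_on with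
  | empty =>
    rw [Finset.prod_empty, Finset.sum_empty]
    exact one_le_map y
  | insert i s hi ih =>
    rw [Finset.prod_insert hi, Finset.sum_insert hi]
    exact (mul_le_mul' (sp_pow_le_map y i _) ih).trans (map_mul_le y _ _)

theorem map_eq (y : Fin r → Fin (N + 1) → L) (β : Fin r → ℕ) :
    Submodule.map (ev K y).toLinearMap (mh K r N β) = PP K y β := by
  refine le_antisymm (map_le y β) ?_
  have h := prod_le_map (K := K) y β Finset.univ
  have e : ∑ i, β i • (Pi.single i 1 : Fin r → ℕ) = β := by
    funext k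
    rw [Finset.sum_apply, Finset.sum_eq_single k]
    · simp
    · intro j _ hj
      rw [Pi.smul_apply, Pi.single_eq_of_ne (Ne.symm hj), smul_zero]
    · intro h
      exact absurd (Finset.mem_univ k) h
  rw [e] at h
  exact h

theorem trn : S_TRN := by
  intro K L _ _ _ r N y
  have hlast : ∀ β : Fin r → ℕ, ∀ Q ∈ mh K r N β, Q ∈ RingHom.ker (phi K y) ↔
      ev K y Q = 0 := by
    classical
    intro β Q hQ
    rw [mem_ker]
    constructor
    · intro h
      have := h β
      rwa [weightedHomogeneousComponent_of_mem hQ, if_pos rfl] at this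
    · intro h γ
      rw [weightedHomogeneousComponent_of_mem hQ]
      by_cases hγ : γ = β
      · rw [if_pos hγ, h]
      · rw [if_neg hγ, map_zero]
  refine ⟨RingHom.ker (phi K y), ?_, ?_, hlast⟩
  · intro Q hQ β
    rw [hlast β _ (weightedHomogeneousComponent_mem _ _ _)]
    exact (mem_ker y Q).mp hQ β
  · intro β
    have := mh_finite (K := K) (r := r) (N := N) β
    set f : mh K r N β →ₗ[K] L := (ev K y).toLinearMap ∘ₗ (mh K r N β).subtype with hff
    have h1 := LinearMap.finrank_range_add_finrank_ker f
    have h2 : LinearMap.range f = PP K y β := by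
      rw [hff, LinearMap.range_comp, Submodule.range_subtype, map_eq]
    have h3 : Submodule.map (mh K r N β).subtype (LinearMap.ker f) =
        (Submodule.restrictScalars K (RingHom.ker (phi K y)) ⊓ mh K r N β :
          Submodule K (MvPolynomial (Fin r × Fin (N + 1)) K)) := by
      ext Q
      constructor
      · rintro ⟨⟨Q', hQ'⟩, hk, rfl⟩
        refine ⟨?_, hQ'⟩
        exact (hlast β Q' hQ').mpr hk
      · rintro ⟨hk, hQ⟩
        exact ⟨⟨Q, hQ⟩, (hlast β Q hQ).mp hk, rfl⟩
    have h4 : Module.finrank K (LinearMap.ker f) = Module.finrank K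
        (Submodule.restrictScalars K (RingHom.ker (phi K y)) ⊓ mh K r N β :
          Submodule K (MvPolynomial (Fin r × Fin (N + 1)) K)) := by
      rw [← h3, Submodule.finrank_map_subtype_eq]
    unfold HF Pool.Agent.Helper10.GO.hf
    rw [← h4, ← h1, h2]
    unfold PP
    push_cast
    ring

end Pool.Agent.Helper9.GO
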